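import Mathlib
import Pool.Agent.H.MP_365e45_an.Spike

set_option autoImplicit false

open Finset MeasureTheory Filter Topology

namespace Pool.Agent.Results.MP_365e45_an.TailDiverge

/-- `e(t) = exp(2 π i t)` -/
noncomputable def e (t : ℝ) : ℂ := Complex.exp (2 * Real.pi * Complex.I * t)

/-- the vertex `x + ω · h` of the cube `c = (x, h)` -/
def vertex {s : ℕ} (c : ℤ × (Fin s → ℤ)) (ω : Fin s → Bool) : ℤ :=
  c.1 + ∑ i, (if ω i then c.2 i else 0)

/-- the `s`-dimensional cubes all of whose vertices lie in `{1, ..., N}` -/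
noncomputable def cubes (s N : ℕ) : Finset (ℤ × (Fin s → ℤ)) :=
  (Icc (1 : ℤ) N ×ˢ Fintype.piFinset fun _ : Fin s => Icc (-(N : ℤ)) N).filter
    fun c => ∀ ω : Fin s → Bool, vertex c ω ∈ Icc (1 : ℤ) N

/-- the Gowers norm `U^s([N])` -/
noncomputable def gowers (s N : ℕ) (f : ℤ → ℂ) : ℝ :=
  (‖∑ c ∈ cubes s N, ∏ ω : Fin s → Bool,
      (if Even (univ.filter fun i => ω i = true).card then f (vertex c ω)
        else (starRingEnd ℂ) (f (vertex c ω)))‖ / (cubes s N).card) ^ ((1 : ℝ) / 2 ^ s)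

/-- `∑_{a mod q, (a,q)=1} S(a/q) e(n a/q)` -/
noncomputable def arc (S : ℚ → ℂ) (q : ℕ) (n : ℤ) : ℂ :=
  ∑ a ∈ (range q).filter (fun a => Nat.Coprime a q), S ((a : ℚ) / q) * e ((n : ℝ) * a / q)

/-- `w` is admissible and satisfies the Fourier approximation condition -/
def Good (w : ℤ → ℂ) : Prop :=
  (∃ (C : ℝ) (L : ℕ), ∀ (a : ℤ) (l : ℕ), L ≤ l → |(a : ℝ) + l / 2| ≤ 5 * l →
    ∑ n ∈ Ico a (a + l), ‖w n‖ ≤ C * l) ∧
  ∃ (C ν c : ℝ) (s : ℕ) (S : ℚ → ℂ) (M : ℕ → ℕ) (δ η : ℕ → ℝ),
    4 < ν ∧ 3 ≤ s ∧ 0 < c ∧ Tendsto δ atTop (𝓝 0) ∧ Tendsto η atTop (𝓝 0) ∧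
    (∀ r : ℚ, ‖S r‖ ≤ C * (r.den : ℝ) ^ (δ r.den - 1)) ∧
    ∀ᶠ N : ℕ in atTop, (M N : ℝ) ≤ (N : ℝ) ^ η N ∧
      gowers s N (fun n => w n - ∑ q ∈ Icc 1 (M N), arc S q n) ≤
        C * Real.log N ^ (-ν / 2 ^ s) ∧
      ∀ β : ℝ, ‖(1 / (N : ℂ)) * ∑ n ∈ Icc (1 : ℤ) N,
          (w n - ∑ j ∈ (range (M N + 1)).filter (fun j => 2 ^ j ≤ M N),
            ∑ q ∈ (Icc 1 (2 ^ j)).filter (fun q => 2 ^ j < 2 * q), arc S q n) * e (-(n * β))‖ ≤
        C * (N : ℝ) ^ (-c)

open Pool.Agent.H.MP_365e45_an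

theorem result : ∃ w : ℤ → ℝ, (∀ n, 1 ≤ w n) ∧ Good (fun n => (w n : ℂ)) ∧
    ∃ (X : Type) (_ : MeasurableSpace X) (μ : Measure X) (_ : IsProbabilityMeasure μ)
      (T : X ≃ᵐ X), MeasurePreserving T μ μ ∧
      ∀ p q : ENNReal, p ≤ 101 / 100 → q ≤ 101 / 100 →
        ∃ f g : X → ℂ, MemLp f p μ ∧ MemLp g q μ ∧ ∀ᵐ x ∂μ, ¬ ∃ l : ℂ,
          Tendsto (fun N : ℕ => (1 / (N : ℂ)) * ∑ n ∈ Icc 1 N,
            (w n : ℂ) * f (T^[n] x) * g (T.symm^[n] x)) atTop (𝓝 l) := by
  classical
  refine ⟨fun n => 1 + sp n, fun n => by linarith [sp_nonneg n], ⟨⟨19, 1, ?_⟩, ?_⟩, ?_⟩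
  · intro a l hl ha
    have hl' : (1 : ℝ) ≤ l := by exact_mod_cast hl
    have h1 : ∀ n, ‖((1 + sp n : ℝ) : ℂ)‖ = 1 + sp n := fun n => by
      rw [Complex.norm_real, Real.norm_of_nonneg (by linarith [sp_nonneg n])]
    simp only [h1, sum_add_distrib, sum_const, Int.card_Ico, add_sub_cancel_left,
      Int.toNat_natCast, nsmul_eq_mul, mul_one]
    have h2 := sp_sum (N := 6 * l) (by omega) (Ico a (a + l)) (fun n hn => by
      have b1 := (mem_Ico.1 hn).2
      have b2 : (a : ℝ) ≤ 5 * l := by linarith [(abs_le.1 ha).2]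
      have b3 : a ≤ 5 * l := by exact_mod_cast b2
      push_cast
      omega)
    have h3 : ((6 * l : ℕ) : ℝ) ^ ((9 : ℝ) / 10) ≤ ((6 * l : ℕ) : ℝ) ^ (1 : ℝ) :=
      Real.rpow_le_rpow_of_exponent_le (by push_cast; linarith) (by norm_num)
    rw [Real.rpow_one] at h3
    push_cast at h2 h3
    linarith
  · refine ⟨21 * 8 ^ 4, 5, 1 / 10, 3, fun r => if r.den = 1 then 1 else 0, fun _ => 1,
      fun _ => 0, fun _ => 0, by norm_num, le_rfl, by norm_num, tendsto_const_nhds,
      tendsto_const_nhds, fun r => ?_, ?_⟩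
    · beta_reduce
      split_ifs with h
      · simp [h]; norm_num
      · simp only [norm_zero]; positivity
    have harc : ∀ n : ℤ, arc (fun r => if r.den = 1 then 1 else 0) 1 n = 1 := by
      intro n
      have : (range 1).filter (fun a => Nat.Coprime a 1) = {0} := by decide
      simp [arc, e]
    filter_upwards [log_small, eventually_ge_atTop 4] with N hlog hN
    have hN0 : N ≠ 0 := by omega
    have hN1 : (4 : ℝ) ≤ N := by exact_mod_cast hN
    refine ⟨by simp, ?_, fun β => ?_⟩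
    · have e1 : (fun n => ((1 + sp n : ℝ) : ℂ) -
          ∑ q ∈ Icc 1 1, arc (fun r => if r.den = 1 then 1 else 0) q n) =
          fun n => ((sp n : ℝ) : ℂ) := by
        funext n
        simp [harc]
      rw [e1, gowers]
      have c1 : ‖∑ c ∈ cubes 3 N, ∏ ω : Fin 3 → Bool,
          (if Even (univ.filter fun i => ω i = true).card then ((sp (vertex c ω) : ℝ) : ℂ)
            else (starRingEnd ℂ) ((sp (vertex c ω) : ℝ) : ℂ))‖ ≤
          21 * (N : ℝ) ^ ((139 : ℝ) / 35) := by
        refine (norm_sum_le _ _).trans (le_trans (sum_le_sum fun c _ => le_of_eq ?_)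
          (cube_sum hN0 (cubes 3 N) fun c hc ω => (mem_Icc.1 ((mem_filter.1 hc).2 ω)).2))
        rw [norm_prod]
        refine prod_congr rfl fun ω _ => ?_
        simp only [Complex.conj_ofReal, ite_self, Complex.norm_real]
        exact Real.norm_of_nonneg (sp_nonneg _)
      have c2 : ((N : ℝ) / 8) ^ 4 ≤ (cubes 3 N).card := by
        have hsub : Icc (1 : ℤ) (N / 4 : ℕ) ×ˢ
            (Fintype.piFinset fun _ : Fin 3 => Icc (1 : ℤ) (N / 4 : ℕ)) ⊆ cubes 3 N := by
          rintro ⟨x, h⟩ hc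
          simp only [mem_product, mem_Icc, Fintype.mem_piFinset] at hc
          have a0 := hc.2 0
          have a1 := hc.2 1
          have a2 := hc.2 2
          simp only [cubes, vertex, mem_filter, mem_product, mem_Icc, Fintype.mem_piFinset,
            Fin.sum_univ_three]
          refine ⟨⟨by omega, fun i => ?_⟩, fun ω => ?_⟩
          · have := hc.2 i
            omega
          · split_ifs <;> omega
        have hc := card_le_card hsub
        simp only [card_product, Int.card_Icc, add_sub_cancel_right, Int.toNat_natCast,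
          Fintype.card_piFinset, prod_const, card_univ, Fintype.card_fin] at hc
        have b1 : (N : ℝ) / 8 ≤ (N / 4 : ℕ) := by
          have : N ≤ 8 * (N / 4) := by omega
          have : (N : ℝ) ≤ 8 * (N / 4 : ℕ) := by exact_mod_cast this
          linarith
        refine (pow_le_pow_left₀ (by positivity) b1 4).trans ?_
        have : (N / 4) ^ 4 ≤ (cubes 3 N).card := le_trans (le_of_eq (by ring)) hc
        exact_mod_cast this
      have c3 : 21 * (N : ℝ) ^ ((139 : ℝ) / 35) / ((N : ℝ) / 8) ^ 4 =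
          21 * 8 ^ 4 * (N : ℝ) ^ (-(1 : ℝ) / 35) := by
        have : (N : ℝ) ^ ((139 : ℝ) / 35) = (N : ℝ) ^ (-(1 : ℝ) / 35) * (N : ℝ) ^ 4 := by
          rw [← Real.rpow_natCast, ← Real.rpow_add (by linarith)]; norm_num
        rw [this]; field_simp
      have c4 := (div_le_div₀ (by positivity) c1 (by positivity) c2).trans_eq c3
      refine (Real.rpow_le_rpow (by positivity) c4 (by positivity)).trans ?_
      rw [Real.mul_rpow (by positivity) (by positivity), ← Real.rpow_mul (by linarith)]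
      refine mul_le_mul ?_ (le_trans (le_of_eq ?_) hlog) (by positivity) (by positivity)
      · refine (Real.rpow_le_rpow_of_exponent_le (by norm_num)
          (show _ ≤ (1 : ℝ) by norm_num)).trans_eq (Real.rpow_one _)
      · norm_num
    · have e0 : (range (1 + 1)).filter (fun j => 2 ^ j ≤ 1) = {0} := by decide
      have e1 : (Icc 1 (2 ^ 0)).filter (fun q => 2 ^ 0 < 2 * q) = {1} := by decide
      simp only [e0, sum_singleton, e1, harc]
      rw [norm_mul, norm_div, norm_one, Complex.norm_natCast]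
      have c1 : ‖∑ n ∈ Icc (1 : ℤ) N, (((1 + sp n : ℝ) : ℂ) - 1) * e (-(n * β))‖ ≤
          3 * (N : ℝ) ^ ((9 : ℝ) / 10) := by
        refine (norm_sum_le _ _).trans (le_trans (sum_le_sum fun n _ => le_of_eq ?_)
          (sp_sum hN0 _ fun n hn => (mem_Icc.1 hn).2))
        have : ‖e (-(n * β))‖ = 1 := by
          rw [e, ← Complex.norm_exp_ofReal_mul_I (2 * Real.pi * -(n * β))]
          congr 2
          push_cast
          ring
        rw [norm_mul, this, mul_one]
        push_cast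
        rw [add_sub_cancel_left, Complex.norm_real]
        exact Real.norm_of_nonneg (sp_nonneg _)
      have c2 : (N : ℝ) ^ ((9 : ℝ) / 10) = (N : ℝ) ^ (-(1 / 10 : ℝ)) * N := by
        rw [← Real.rpow_add_one (by linarith)]; norm_num
      rw [c2] at c1
      rw [one_div, inv_mul_le_iff₀ (by linarith)]
      have c3 : (0 : ℝ) ≤ (N : ℝ) ^ (-(1 / 10 : ℝ)) * N := by positivity
      nlinarith
  · refine ⟨Om, inferInstance, mu, inferInstance, MeasurableEquiv.addRight 1, mp_add 1,
      fun p q hp hq => ?_⟩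
    obtain ⟨f, hf, hx⟩ := system
    refine ⟨fun x => (f x : ℂ), fun x => (f x : ℂ), (hf.mono_exponent hp).ofReal,
      (hf.mono_exponent hq).ofReal, ?_⟩
    filter_upwards [hx] with x hx
    rintro ⟨l, hl⟩
    have t1 : ∀ n : ℕ, (MeasurableEquiv.addRight (1 : Om))^[n] x = x + n := by
      intro n
      induction n with
      | zero => simp
      | succ n ih => rw [Function.iterate_succ_apply', ih]; simp [add_assoc]
    have t2 : ∀ n : ℕ, (MeasurableEquiv.addRight (1 : Om)).symm^[n] x = x - n := by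
      intro n
      induction n with
      | zero => simp
      | succ n ih =>
        rw [Function.iterate_succ_apply', ih]
        simp only [MeasurableEquiv.symm_addRight, MeasurableEquiv.coe_addRight]
        push_cast
        ring
    simp only [t1, t2] at hl
    exact diverge hx l hl

end Pool.Agent.Results.MP_365e45_an.TailDiverge
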